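import Mathlib
import Pool.Agent.H20.SK.Chain

/-!
# The intersections of a normal subdirect product with the factors

`C` is any class of groups which is closed under subgroups, overgroups of finite index and extensions with
abelian kernel. The class of the groups that satisfy the K-theoretic Farrell–Jones conjecture with
coefficients and finite wreath products is such a class; its torsion-free members of type (FP) are of type
(FF).

Let the normal subgroup `A` of `G` map to a direct product of commutative transitive groups. If the kernel
is hypercentral and the intersections of the image with the factors are not commutative, then all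
automorphisms of `A` permute the kernels of the coordinates. Hence the preimage `M` of the direct product of
the intersections is normal in `G`. The theorem reduces membership of `G` in `C` to that of `G ⧸ M`.
-/

set_option autoImplicit false

namespace Pool.Agent.Results.MP_d19827_al.FactorIntersections

open Pool.Agent.H20.SK

/-- `h` is the `i`-th coordinate of an element `f a` all of whose other coordinates are trivial, that is:
`h` lies in the intersection of the image of `f` with the factor `H i` -/
def InFactor {I : Type} {H : I → Type} [∀ i, Group (H i)] {A : Type} [Group A]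
    (f : A →* (∀ i, H i)) (i : I) (h : H i) : Prop :=
  ∃ a, f a i = h ∧ ∀ j, j ≠ i → f a j = 1

/-- Let `C` be closed under subgroups, overgroups of finite index and extensions with abelian kernel. Let
`A` be a normal subgroup of `G` and let `f` be a homomorphism from `A` to the direct product of finitely
many commutative transitive groups `H i`, whose kernel lies in some term of the upper central series of
`A`. Assume that the intersection of the image of `f` with each factor is not commutative and that `C` is
closed under extensions with kernel isomorphic to one of these intersections. Then the preimage `M` of the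
product of these intersections is normal in `G`, and `G` is in `C` if `G ⧸ M` is in `C`. -/
theorem result (C : ∀ (G : Type) [Group G], Prop)
    (hsub : ∀ (A B : Type) [Group A] [Group B] (f : A →* B), Function.Injective f → C B → C A)
    (hfin : ∀ (H : Type) [Group H] (K : Subgroup H), K.FiniteIndex → C K → C H)
    (habel : ∀ (H : Type) [Group H] (K : Subgroup H) [K.Normal],
      (∀ a ∈ K, ∀ c ∈ K, a * c = c * a) → C (H ⧸ K) → C H)
    (G : Type) [Group G] (A : Subgroup G) [A.Normal] (I : Type) [Finite I] (H : I → Type)
    [∀ i, Group (H i)] (f : A →* (∀ i, H i))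
    (hct : ∀ i, ∀ x y z : H i, y ≠ 1 → x * y = y * x → y * z = z * y → x * z = z * x)
    (m : ℕ) (hm : f.ker ≤ Subgroup.upperCentralSeries A m)
    (hnc : ∀ i, ∃ x y, InFactor f i x ∧ InFactor f i y ∧ x * y ≠ y * x)
    (hgood : ∀ i, ∀ L : Subgroup (H i), (∀ x, x ∈ L ↔ InFactor f i x) →
      ∀ (E : Type) [Group E] (K : Subgroup E) [K.Normal],
        Nonempty (K ≃* L) → C (E ⧸ K) → C E) :
    ∃ (M : Subgroup G) (_ : M.Normal), M ≤ A ∧
      (∀ a : A, (a : G) ∈ M ↔ ∀ i, InFactor f i (f a i)) ∧ (C (G ⧸ M) → C G) := by
  have hC : Cl C := ⟨hsub, hfin, habel⟩
  have hf : Sub f m := by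
    refine ⟨hct, fun a ha => hm ha, fun i => ?_⟩
    obtain ⟨x, y, ⟨a, ha, ha'⟩, ⟨b, hb, hb'⟩, hxy⟩ := hnc i
    refine ⟨a, b, ha', hb', ?_⟩
    rw [map_mul, map_mul, Pi.mul_apply, Pi.mul_apply, ha, hb]
    exact hxy
  have hA : A.Normal := inferInstance
  have h : Emb A.subtype := ⟨A.subtype_injective, fun g a => ⟨⟨_, hA.conj_mem _ a.2 g⟩, rfl⟩⟩
  have hM : (MG A.subtype f Set.univ).Normal := MG_univ_normal h hf
  refine ⟨MG A.subtype f Set.univ, hM, ?_, ?_, ?_⟩
  · rintro _ ⟨a, _, rfl⟩
    exact a.2
  · intro a
    constructor
    · rintro ⟨b, hb, hab⟩ i
      have h3 : b = a := Subtype.ext hab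
      rw [← h3]
      exact hb.1 i (Set.mem_univ i)
    · intro ha
      exact ⟨a, ⟨fun i _ => ha i, fun i hi => absurd (Set.mem_univ i) hi⟩, rfl⟩
  · intro hq
    exact main1 hC h hf (fun i => hgood i (LS f i) fun x => Iff.rfl) hq

end Pool.Agent.Results.MP_d19827_al.FactorIntersections
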