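import Mathlib
import Pool.Agent.H20.SK.FP

/-!
# Extensions whose kernel is virtually a finitely presented subgroup of a product of free groups

`C` is any class of groups which is closed under subgroups, overgroups of finite index and extensions with
abelian or free kernel. The class of the groups that satisfy the K-theoretic Farrell–Jones conjecture with
coefficients and finite wreath products is such a class; its torsion-free members of type (FP) are of type
(FF).

The theorem shows that `C` is closed under extensions by every group with a finitely presented subgroup of
finite index which embeds in a direct product of finitely many free and abelian groups.

Outline. Forget coordinates of the finitely presented group `A` until the kernel is hypercentral and the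
intersections of the image with the remaining factors are not commutative. All automorphisms of `A` permute
the kernels `K i` of the remaining coordinates, so the product of the intersections is preserved by a
subgroup of finite index of `G`, and the factors can be added one after the other. It remains to show that
`A` modulo this product is virtually solvable. It is enough that all `K i * K j` have finite index in `A`.
The group `K i` is centralized by an element `g` outside `K i`. As `A` is finitely presented, the Fox
derivative of the free group `A / K i` lifts to a derivation of `A` with values in the permutation module of
the cosets of a finitely generated subgroup `B` of `K i`; its value at `g` gives a finite orbit of `K i` on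
the cosets of `B` modulo `g`, so a conjugate of `B` has finite index in `K i`. Hence `K i` is finitely
generated, and its image in the free group `A / K j` is a nontrivial finitely generated normal subgroup, which
has finite index.
-/

set_option autoImplicit false

namespace Pool.Agent.Results.MP_d19827_al.FinitelyPresentedKernels

open Pool.Agent.H20.SK

/-- Let `C` be closed under subgroups, overgroups of finite index and extensions with abelian kernel and
with free kernel. Let `N` be a normal subgroup of `G` with `G ⧸ N` in `C`, and let `N` have a finitely
presented subgroup `A` of finite index which embeds in the direct product of finitely many groups, each of
them free or abelian. Then `G` is in `C`. -/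
theorem result (C : ∀ (G : Type) [Group G], Prop)
    (hsub : ∀ (A B : Type) [Group A] [Group B] (f : A →* B), Function.Injective f → C B → C A)
    (hfin : ∀ (H : Type) [Group H] (K : Subgroup H), K.FiniteIndex → C K → C H)
    (habel : ∀ (H : Type) [Group H] (K : Subgroup H) [K.Normal],
      (∀ a ∈ K, ∀ c ∈ K, a * c = c * a) → C (H ⧸ K) → C H)
    (hfree : ∀ (H : Type) [Group H] (K : Subgroup H) [K.Normal], IsFreeGroup K → C (H ⧸ K) → C H)
    (G : Type) [Group G] (N A : Subgroup G) [N.Normal] (hAN : A ≤ N) (hfi : A.relIndex N ≠ 0)
    (hfp : Group.IsFinitelyPresented A) (I : Type) [Finite I] (F : I → Type) [∀ i, Group (F i)]
    (hF : ∀ i, IsFreeGroup (F i) ∨ ∀ x y : F i, x * y = y * x)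
    (f : A →* (∀ i, F i)) (hinj : Function.Injective f) (hQ : C (G ⧸ N)) : C G :=
  main_fp ⟨hsub, hfin, habel⟩ hfree N A hAN hfi hfp hF f hinj hQ

end Pool.Agent.Results.MP_d19827_al.FinitelyPresentedKernels
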