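import Mathlib
import Pool.Agent.H20.SK.Virt
import Pool.Agent.H20.SK.FreeCT

/-!
# Extensions whose kernel is virtually a subdirect product

`C` is any class of groups which is closed under subgroups, overgroups of finite index and extensions with
abelian or free kernel. The class of the groups that satisfy the K-theoretic Farrell–Jones conjecture with
coefficients and finite wreath products is such a class; its torsion-free members of type (FP) are of type
(FF).

The theorem shows that `C` is closed under extensions whose kernel is, up to finite index, a subgroup of a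
direct product of finitely many free groups which virtually surjects to pairs. Every automorphism of the
kernel permutes the kernels of the projections to the nonabelian factors; this makes the product of the
intersections with the factors a normal subgroup of the whole group.
-/

set_option autoImplicit false

namespace Pool.Agent.Results.MP_d19827_al.SubdirectKernels

open Pool.Agent.H20.SK

/-- the coordinates `i` and `j` of a homomorphism to a direct product -/
def pair {I : Type} {H : I → Type} [∀ i, Group (H i)] {A : Type} [Group A] (f : A →* (∀ i, H i))
    (i j : I) : A →* H i × H j where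
  toFun a := (f a i, f a j)
  map_one' := by rw [map_one]; rfl
  map_mul' a b := by rw [map_mul]; rfl

/-- `h` is the `i`-th coordinate of an element `f a` all of whose other coordinates are trivial, that is:
`h` lies in the intersection of the image of `f` with the factor `H i` -/
def InFactor {I : Type} {H : I → Type} [∀ i, Group (H i)] {A : Type} [Group A]
    (f : A →* (∀ i, H i)) (i : I) (h : H i) : Prop :=
  ∃ a, f a i = h ∧ ∀ j, j ≠ i → f a j = 1

/-- some term of the derived series of some subgroup of finite index of `A` is mapped into the direct
product of the intersections of the image of `f` with the factors -/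
def VirtSolvable {I : Type} {H : I → Type} [∀ i, Group (H i)] {A : Type} [Group A]
    (f : A →* (∀ i, H i)) : Prop :=
  ∃ S : Subgroup A, S.index ≠ 0 ∧ ∃ k, ∀ s ∈ derivedSeries S k, ∀ i, InFactor f i (f s i)

/-- Let `C` be closed under subgroups, overgroups of finite index and extensions with abelian kernel and
with free kernel. Let `N` be normal in `G` with `G ⧸ N` in `C` and let `A` be a subgroup of finite index of
`N`; let `A` be normal in `G` or let `N` be finitely generated. Let `f` be a homomorphism from `A` to the
direct product of finitely many groups `H i`, whose kernel lies in some term of the upper central series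
of `A`. Let each `H i` be free, or abelian, or a CSA group such that `C` is closed under extensions with
kernel isomorphic to a subgroup of `H i`. Assume that the image of `A` in the product of any two different
factors has finite index, or that `VirtSolvable` holds. Then `G` is in `C`. -/
theorem result (C : ∀ (G : Type) [Group G], Prop)
    (hsub : ∀ (A B : Type) [Group A] [Group B] (f : A →* B), Function.Injective f → C B → C A)
    (hfin : ∀ (H : Type) [Group H] (K : Subgroup H), K.FiniteIndex → C K → C H)
    (habel : ∀ (H : Type) [Group H] (K : Subgroup H) [K.Normal],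
      (∀ a ∈ K, ∀ c ∈ K, a * c = c * a) → C (H ⧸ K) → C H)
    (hfree : ∀ (H : Type) [Group H] (K : Subgroup H) [K.Normal], IsFreeGroup K → C (H ⧸ K) → C H)
    (G : Type) [Group G] (N A : Subgroup G) [N.Normal] (hAN : A ≤ N) (hfi : A.relIndex N ≠ 0)
    (hfg : A.Normal ∨ Group.FG N) (I : Type) [Finite I] (H : I → Type) [∀ i, Group (H i)]
    (hH : ∀ i, IsFreeGroup (H i) ∨ (∀ x y : H i, x * y = y * x) ∨
      ((∀ x y z : H i, y ≠ 1 → x * y = y * x → y * z = z * y → x * z = z * x) ∧
        (∀ a c : H i, a ≠ 1 → a * (c * a * c⁻¹) = c * a * c⁻¹ * a → a * c = c * a) ∧
        ∀ (L : Subgroup (H i)) (E : Type) [Group E] (K : Subgroup E) [K.Normal],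
          Nonempty (K ≃* L) → C (E ⧸ K) → C E))
    (f : A →* (∀ i, H i)) (m : ℕ) (hm : f.ker ≤ Subgroup.upperCentralSeries A m)
    (hv : (∀ i j, i ≠ j → (pair f i j).range.FiniteIndex) ∨ VirtSolvable f)
    (hQ : C (G ⧸ N)) : C G := by
  have hC : Cl C := ⟨hsub, hfin, habel⟩
  have hcsa : ∀ i, CSA (H i) := by
    intro i
    rcases hH i with h | h | ⟨h, h', _⟩
    · exact ⟨fun x y z => free_ct x y z, fun a c => free_csa a c⟩
    · exact ⟨fun x y z _ _ _ => h x z, fun a c _ _ => h a c⟩
    · exact ⟨h, h'⟩
  have hgood : ∀ i (L : Subgroup (H i)), Good C L := by
    intro i L E _ K _ he hq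
    rcases hH i with h | h | ⟨_, _, h⟩
    · obtain ⟨e⟩ := he
      exact hfree E K (IsFreeGroup.ofMulEquiv e.symm) hq
    · obtain ⟨e⟩ := he
      refine habel E K ?_ hq
      intro a ha c hc
      have h3 : (⟨a, ha⟩ : K) * ⟨c, hc⟩ = ⟨c, hc⟩ * ⟨a, ha⟩ := by
        apply e.injective
        rw [map_mul, map_mul]
        exact Subtype.ext (h _ _)
      exact congrArg Subtype.val h3
    · exact h L E K he hq
  have hv' : VirtSolvable f := by
    rcases hv with h | h
    · exact vsp f h
    · exact h
  obtain ⟨S, hS, k, hk⟩ := hv'
  obtain ⟨J, l, hJ⟩ := exists_J f m (fun a ha => hm ha) hcsa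
  exact main3 hC N A hAN hfi hfg hJ (fun i => hgood i.1 _) S hS k
    (fun s hs i => LS_J f J i (hk s hs i.1)) hQ

end Pool.Agent.Results.MP_d19827_al.SubdirectKernels
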